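import Pool.Agent.H31.PC.Targets
import Pool.Agent.H31.PC.Alg

/-!
# Board pc, module TWO: a form and two lines determine a point almost uniquely
-/

namespace Pool.Agent.H47.PC

open Finset MvPolynomial Pool.Agent.H31.PC Pool.Agent.H31.RZ

/-- the integers dividing `r` -/
def dv (r : ℤ) : Finset ℤ :=
  r.natAbs.divisors.image (fun n : ℕ => (n : ℤ)) ∪ r.natAbs.divisors.image (fun n : ℕ => -(n : ℤ))

theorem mem_dv {r t : ℤ} (hr : r ≠ 0) (h : t ∣ r) : t ∈ dv r := by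
  have h1 : t.natAbs ∈ r.natAbs.divisors :=
    Nat.mem_divisors.2 ⟨Int.natAbs_dvd_natAbs.2 h, Int.natAbs_ne_zero.2 hr⟩
  unfold dv
  rw [mem_union, mem_image, mem_image]
  rcases Int.natAbs_eq t with h2 | h2
  · left
    exact ⟨t.natAbs, h1, h2.symm⟩
  · right
    exact ⟨t.natAbs, h1, h2.symm⟩

theorem card_dv (r : ℤ) : (dv r).card ≤ 2 * r.natAbs.divisors.card := by
  unfold dv
  have h1 := card_image_le (s := r.natAbs.divisors) (f := fun n : ℕ => (n : ℤ))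
  have h2 := card_image_le (s := r.natAbs.divisors) (f := fun n : ℕ => -(n : ℤ))
  have h3 := card_union_le (r.natAbs.divisors.image (fun n : ℕ => (n : ℤ)))
    (r.natAbs.divisors.image (fun n : ℕ => -(n : ℤ)))
  omega

/-- the polynomial `w(a, b, T)` -/
noncomputable def pw (w : MvPolynomial (Fin 3) ℤ) (a b : ℤ) : Polynomial ℤ :=
  aeval ![Polynomial.C a, Polynomial.C b, Polynomial.X] w

theorem pw_eq (w : MvPolynomial (Fin 3) ℤ) (a b : ℤ) : pw w a b = ∑ μ ∈ w.support,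
    Polynomial.C (w.coeff μ * a ^ μ 0 * b ^ μ 1) * Polynomial.X ^ μ 2 := by
  rw [pw, aeval_def, eval₂_eq']
  refine Finset.sum_congr rfl fun μ _ => ?_
  rw [Fin.prod_univ_three]
  simp only [Matrix.cons_val_zero, Matrix.cons_val_one, Matrix.cons_val, map_mul, map_pow]
  rw [show algebraMap ℤ (Polynomial ℤ) (w.coeff μ) = Polynomial.C (w.coeff μ) from rfl]
  ring

theorem eval_pw (w : MvPolynomial (Fin 3) ℤ) (y : Fin 3 → ℤ) :
    (pw w (y 0) (y 1)).eval (y 2) = eval y w := by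
  rw [pw_eq, Polynomial.eval_finsetSum, eval_eq']
  refine Finset.sum_congr rfl fun μ _ => ?_
  rw [Fin.prod_univ_three, Polynomial.eval_mul, Polynomial.eval_C, Polynomial.eval_pow,
    Polynomial.eval_X]
  ring

theorem natDegree_pw {w : MvPolynomial (Fin 3) ℤ} {e : ℕ} (hw : w.IsHomogeneous e) (a b : ℤ) :
    (pw w a b).natDegree ≤ e := by
  rw [Polynomial.natDegree_le_iff_coeff_eq_zero]
  intro k hk
  rw [pw_eq, Polynomial.finsetSum_coeff]
  refine Finset.sum_eq_zero fun μ hμ => ?_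
  rw [coeff_mul_pow, if_neg]
  intro h1
  have h3 : μ.degree = e := by
    by_contra h
    exact mem_support_iff.1 hμ (hw.coeff_eq_zero h)
  rw [Finsupp.degree_eq_sum, Fin.sum_univ_three] at h3
  omega

theorem coeff_pw {w : MvPolynomial (Fin 3) ℤ} {e : ℕ} (hw : w.IsHomogeneous e) (a b : ℤ) :
    (pw w a b).coeff e = eval ![0, 0, 1] w := by
  rw [pw_eq, Polynomial.finsetSum_coeff, eval_eq']
  refine Finset.sum_congr rfl fun μ hμ => ?_
  have h3 : μ.degree = e := by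
    by_contra h
    exact mem_support_iff.1 hμ (hw.coeff_eq_zero h)
  rw [Finsupp.degree_eq_sum, Fin.sum_univ_three] at h3
  rw [coeff_mul_pow, Fin.prod_univ_three]
  simp only [Matrix.cons_val_zero, Matrix.cons_val_one, Matrix.cons_val, one_pow, mul_one]
  split_ifs with h
  · have h0 : μ 0 = 0 := by omega
    have h1 : μ 1 = 0 := by omega
    rw [h0, h1]
    simp
  · by_cases h0 : μ 0 = 0
    · have h1 : μ 1 ≠ 0 := by omega
      rw [zero_pow h1, mul_zero, mul_zero]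
    · rw [zero_pow h0, zero_mul, mul_zero]

/-- the finite set which contains the points -/
noncomputable def TT (r r' : ℤ) (w : MvPolynomial (Fin 3) ℤ) : Finset (Fin 3 → ℤ) :=
  (dv r ×ˢ dv r').biUnion fun ab =>
    (pw w ab.1 ab.2).roots.toFinset.image fun z => ![ab.1, ab.2, z]

theorem card_TT (r r' : ℤ) {w : MvPolynomial (Fin 3) ℤ} {e : ℕ} (hw : w.IsHomogeneous e) :
    (TT r r' w).card ≤ (2 * r.natAbs.divisors.card) * (2 * r'.natAbs.divisors.card) * e := by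
  unfold TT
  refine le_trans card_biUnion_le ?_
  have h1 : ∀ ab ∈ dv r ×ˢ dv r', ((pw w ab.1 ab.2).roots.toFinset.image
      fun z => ![ab.1, ab.2, z]).card ≤ e := by
    intro ab _
    refine le_trans card_image_le ?_
    refine le_trans (Multiset.toFinset_card_le _) ?_
    exact le_trans (Polynomial.card_roots' _) (natDegree_pw hw _ _)
  refine le_trans (Finset.sum_le_card_nsmul _ _ e h1) ?_
  rw [card_product, smul_eq_mul]
  exact Nat.mul_le_mul_right e (Nat.mul_le_mul (card_dv r) (card_dv r'))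

theorem prim_unit {y : Fin 3 → ℤ} (hy : Prim y) (t : ℤ) (h0 : t ∣ y 0) (h1 : t ∣ y 1)
    (h2 : t ∣ y 2) : IsUnit t := by
  apply isUnit_of_dvd_one
  have h : t ∣ Finset.univ.gcd y := by
    apply Finset.dvd_gcd
    intro i _
    fin_cases i
    · exact h0
    · exact h1
    · exact h2
  rw [Prim] at hy
  rw [hy] at h
  exact h

theorem rp1 (R d e : ℕ) (ε : ℝ) (hde : (0 : ℝ) < 2 * ((d : ℝ) + e)) :
    ((R : ℝ) ^ (d + e)) ^ (ε / (2 * ((d : ℝ) + e))) = (R : ℝ) ^ (ε / 2) := by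
  have hde' : (d : ℝ) + e ≠ 0 := by
    intro h0
    rw [h0] at hde
    linarith
  have h1 : ((d + e : ℕ) : ℝ) * (ε / (2 * ((d : ℝ) + e))) = ε / 2 := by
    push_cast
    field_simp
  rw [← Real.rpow_natCast, ← Real.rpow_mul (Nat.cast_nonneg _), h1]

theorem rp2 (R : ℕ) (ε : ℝ) (hR : 0 < R) :
    (R : ℝ) ^ (ε / 2) * (R : ℝ) ^ (ε / 2) = (R : ℝ) ^ ε := by
  have h0 : (0 : ℝ) < R := by exact_mod_cast hR
  rw [← Real.rpow_add h0, add_halves]

theorem fin_ineq {a b K P : ℝ} (ha : 0 ≤ a) (hb : 0 ≤ b) (hK : 0 ≤ K) (hP : 0 ≤ P) (e : ℕ)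
    (h1 : a ≤ K * P) (h2 : b ≤ K * P) :
    (2 * a) * (2 * b) * e ≤ (2 * K) * (2 * K) * e * (P * P) := by
  calc (2 * a) * (2 * b) * e ≤ (2 * (K * P)) * (2 * (K * P)) * e := by
        apply mul_le_mul_of_nonneg_right _ (Nat.cast_nonneg _)
        apply mul_le_mul
        · linarith
        · linarith
        · linarith
        · have := mul_nonneg hK hP
          linarith
    _ = _ := by ring

theorem pf_TWO (h1 : T_RES) (h2 : T_RSZ) (h3 : T_DB) : T_TWO := by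
  intro d e ε hd he hε
  have hde : (0 : ℝ) < 2 * ((d : ℝ) + e) := by
    have : (1 : ℝ) ≤ d := by exact_mod_cast hd
    have : (1 : ℝ) ≤ e := by exact_mod_cast he
    linarith
  obtain ⟨C₀, hC₀, hdb⟩ := h3 (ε / (2 * ((d : ℝ) + e))) (div_pos hε hde)
  have hδ : 0 < ε / (2 * ((d : ℝ) + e)) := div_pos hε hde
  set δ := ε / (2 * ((d : ℝ) + e)) with hδdef
  have hF : (1 : ℝ) ≤ ((d + e).factorial : ℝ) := by
    exact_mod_cast Nat.factorial_pos (d + e)
  have hFδ : (1 : ℝ) ≤ ((d + e).factorial : ℝ) ^ δ := Real.one_le_rpow hF hδ.le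
  refine ⟨(2 * (C₀ * ((d + e).factorial : ℝ) ^ δ)) * (2 * (C₀ * ((d + e).factorial : ℝ) ^ δ)) * e,
    ?_, ?_⟩
  · have h4 : (1 : ℝ) ≤ 2 * (C₀ * ((d + e).factorial : ℝ) ^ δ) := by
      have := one_le_mul_of_one_le_of_one_le hC₀ hFδ
      linarith
    have h5 : (1 : ℝ) ≤ e := by exact_mod_cast he
    exact one_le_mul_of_one_le_of_one_le (one_le_mul_of_one_le_of_one_le h4 h4) h5
  intro R w φ₀ φ₁ hR hw hφ₀ hφ₁ hne hr0 hr1
  have hhom := (mem_FF.1 hw).1
  have hb0 := r0_mem hw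
  have hb1 := r1_mem hw
  have hsub : {y : Fin 3 → ℤ | Prim y ∧ eval y w = 0 ∧ y 0 ∣ hv d φ₀ (y 1) (y 2) ∧
      y 1 ∣ hv d φ₁ (y 0) (y 2)} ⊆
      (TT (φ₀.resultant (r0 w) d e) (φ₁.resultant (r1 w) d e) w : Set (Fin 3 → ℤ)) := by
    rintro y ⟨hy, hyw, hy0, hy1⟩
    have k0 : y 0 ∣ hv e (r0 w) (y 1) (y 2) := by
      have h5 := dvd_sub0 hhom y
      rw [hyw, zero_sub, dvd_neg] at h5
      exact h5
    have k1 : y 1 ∣ hv e (r1 w) (y 0) (y 2) := by
      have h5 := dvd_sub1 hhom y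
      rw [hyw, zero_sub, dvd_neg] at h5
      exact h5
    have m0 : y 0 ∣ φ₀.resultant (r0 w) d e :=
      h1 d e φ₀ (r0 w) (y 0) (y 1) (y 2) hd he (mem_PB.1 hφ₀).1 (mem_PB.1 hb0).1 hy0 k0
        (fun t a b c => prim_unit hy t a b c)
    have m1 : y 1 ∣ φ₁.resultant (r1 w) d e :=
      h1 d e φ₁ (r1 w) (y 1) (y 0) (y 2) hd he (mem_PB.1 hφ₁).1 (mem_PB.1 hb1).1 hy1 k1
        (fun t a b c => prim_unit hy t b a c)
    rw [Finset.mem_coe, TT, mem_biUnion]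
    refine ⟨(y 0, y 1), mem_product.2 ⟨mem_dv hr0 m0, mem_dv hr1 m1⟩, ?_⟩
    rw [mem_image]
    refine ⟨y 2, ?_, ?_⟩
    · rw [Multiset.mem_toFinset, Polynomial.mem_roots']
      refine ⟨?_, ?_⟩
      · intro h0
        apply hne
        rw [← coeff_pw hhom (y 0) (y 1), h0, Polynomial.coeff_zero]
      · rw [Polynomial.IsRoot.def, eval_pw, hyw]
    · funext i
      fin_cases i <;> rfl
  refine ⟨(Finset.finite_toSet _).subset hsub, ?_⟩
  have hcard := (Set.ncard_le_ncard hsub (Finset.finite_toSet _)).trans_eq (Set.ncard_coe_finset _)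
  have hcard2 := hcard.trans (card_TT (φ₀.resultant (r0 w) d e) (φ₁.resultant (r1 w) d e) hhom)
  have hdiv : ∀ r : ℤ, r ≠ 0 → |r| ≤ (d + e).factorial * (R : ℤ) ^ (d + e) →
      (r.natAbs.divisors.card : ℝ) ≤ (C₀ * ((d + e).factorial : ℝ) ^ δ) * (R : ℝ) ^ (ε / 2) := by
    intro r hr hle
    have h5 := hdb r.natAbs (Int.natAbs_pos.2 hr)
    have h6 : ((r.natAbs : ℕ) : ℝ) ≤ ((d + e).factorial : ℝ) * (R : ℝ) ^ (d + e) := by
      have h7 : ((r.natAbs : ℕ) : ℤ) ≤ (d + e).factorial * (R : ℤ) ^ (d + e) := by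
        rw [Int.natCast_natAbs]
        exact hle
      exact_mod_cast h7
    have h8 : ((r.natAbs : ℕ) : ℝ) ^ δ ≤
        (((d + e).factorial : ℝ) * (R : ℝ) ^ (d + e)) ^ δ :=
      Real.rpow_le_rpow (Nat.cast_nonneg _) h6 hδ.le
    have h9 : (((d + e).factorial : ℝ) * (R : ℝ) ^ (d + e)) ^ δ
        = ((d + e).factorial : ℝ) ^ δ * (R : ℝ) ^ (ε / 2) := by
      rw [Real.mul_rpow (Nat.cast_nonneg _) (pow_nonneg (Nat.cast_nonneg _) _), hδdef,
        rp1 R d e ε hde]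
    rw [h9] at h8
    calc (r.natAbs.divisors.card : ℝ) ≤ C₀ * ((r.natAbs : ℕ) : ℝ) ^ δ := h5
      _ ≤ C₀ * (((d + e).factorial : ℝ) ^ δ * (R : ℝ) ^ (ε / 2)) :=
        mul_le_mul_of_nonneg_left h8 (by linarith)
      _ = _ := by ring
  have q0 := hdiv _ hr0 (h2 d e R φ₀ (r0 w) (mem_PB.1 hφ₀).2 (mem_PB.1 hb0).2)
  have q1 := hdiv _ hr1 (h2 d e R φ₁ (r1 w) (mem_PB.1 hφ₁).2 (mem_PB.1 hb1).2)
  have hRr : (0 : ℝ) ≤ (R : ℝ) ^ (ε / 2) := Real.rpow_nonneg (Nat.cast_nonneg _) _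
  have hcR : (({y : Fin 3 → ℤ | Prim y ∧ eval y w = 0 ∧ y 0 ∣ hv d φ₀ (y 1) (y 2) ∧
      y 1 ∣ hv d φ₁ (y 0) (y 2)} : Set _).ncard : ℝ) ≤
      (2 * ((φ₀.resultant (r0 w) d e).natAbs.divisors.card : ℝ)) *
        (2 * ((φ₁.resultant (r1 w) d e).natAbs.divisors.card : ℝ)) * e := by
    exact_mod_cast hcard2
  refine le_trans hcR ?_
  have hK : 0 ≤ C₀ * ((d + e).factorial : ℝ) ^ δ := by
    have := one_le_mul_of_one_le_of_one_le hC₀ hFδ
    linarith
  rw [← rp2 R ε hR]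
  exact fin_ineq (Nat.cast_nonneg _) (Nat.cast_nonneg _) hK hRr e q0 q1

end Pool.Agent.H47.PC
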